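import Mathlib

namespace Pool.Agent.Results.MP_b003da_nt.Yes

theorem pell (k : ℕ) : ∃ u v : ℤ, (2 * u + 1) ^ 2 = 2 * (2 * v + 1) ^ 2 + 7 ∧ (k : ℤ) ≤ v ∧ 0 ≤ u := by
  induction k with
  | zero => exact ⟨1, 0, by norm_num, by norm_num, by norm_num⟩
  | succ k ih =>
    obtain ⟨u, v, h, h1, h2⟩ := ih
    refine ⟨3 * u + 4 * v + 3, 2 * u + 3 * v + 2, by linear_combination h, ?_, by omega⟩
    push_cast
    omega

theorem result (k : ℕ) : ∃ x y z : ℤ, y ^ 2 + x ^ 2 * y + z ^ 2 * x + 1 = 0 ∧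
    (k : ℤ) ≤ min |x| (min |y| |z|) := by
  obtain ⟨u, v, h, h1, h2⟩ := pell k
  have hk : (0 : ℤ) ≤ k := by omega
  have hv : 0 ≤ v := by omega
  obtain ⟨w, hw⟩ : ∃ w : ℤ, w = 2 * v ^ 2 + 2 * v + 2 := ⟨_, rfl⟩
  have hw1 : v ≤ w := by nlinarith
  refine ⟨2 * w + 1, -(2 * w ^ 2 + 3 * w + 2 + u * (2 * w + 3)), (w + 1) * (2 * v + 1), ?_, ?_⟩
  · have e : 4 * ((-(2 * w ^ 2 + 3 * w + 2 + u * (2 * w + 3))) ^ 2
        + (2 * w + 1) ^ 2 * (-(2 * w ^ 2 + 3 * w + 2 + u * (2 * w + 3)))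
        + ((w + 1) * (2 * v + 1)) ^ 2 * (2 * w + 1) + 1) = 0 := by
      subst hw
      linear_combination (2 * (2 * v ^ 2 + 2 * v + 2) + 3) ^ 2 * h
    linarith
  · rw [abs_neg]
    refine le_min (le_abs.2 (Or.inl (by omega))) (le_min (le_abs.2 (Or.inl ?_)) (le_abs.2 (Or.inl ?_)))
    · nlinarith [mul_nonneg h2 (by omega : 0 ≤ 2 * w + 3)]
    · nlinarith

end Pool.Agent.Results.MP_b003da_nt.Yes
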